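import Pool.Agent.Helper92.BO.GoalsD

/-! Packet BO-FAP: final approximation. -/

namespace Pool.Agent.Helper59.BO

open Pool.Agent.Helper92.BO

theorem fap : FapStmt := by
  intro T X V q hq hX hV
  have hq1 : (1 : ℝ) ≤ (q : ℝ) := by exact_mod_cast hq
  have hq0 : (0 : ℝ) < (q : ℝ) := by linarith
  set ε : ℝ := 1 / (q : ℝ) with hε
  have hε0 : 0 < ε := by positivity
  have hε1 : ε ≤ 1 := by rw [hε, div_le_one hq0]; exact hq1
  have h8 : 1 / (8 * (q : ℝ)) = ε / 8 := by rw [hε]; field_simp
  rw [h8] at hX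
  have hV' : |V - Real.exp T| ≤ Real.exp T * (ε / 8) := by
    refine hV.trans (le_of_eq ?_)
    rw [hε]; field_simp
  have hgoal : Real.exp X / (q : ℝ) = Real.exp X * ε := by rw [hε]; field_simp
  rw [hgoal]
  have hu : |T - X| ≤ ε / 8 := by rw [abs_sub_comm]; exact hX
  have ha : |Real.exp (T - X) - 1| ≤ ε / 4 := by
    have h1 := Real.abs_exp_sub_one_le (x := T - X) (by linarith)
    linarith
  have hT : Real.exp T = Real.exp X * Real.exp (T - X) := by
    rw [← Real.exp_add]; ring_nf
  have hXp := Real.exp_pos X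
  have ha' := abs_le.mp ha
  have h2 : |V - Real.exp T| ≤ Real.exp X * (5 / 4 * (ε / 8)) := by
    refine hV'.trans ?_
    rw [hT, mul_assoc]
    refine mul_le_mul_of_nonneg_left ?_ hXp.le
    refine mul_le_mul_of_nonneg_right ?_ (by positivity)
    linarith
  have h3 : |Real.exp T - Real.exp X| ≤ Real.exp X * (ε / 4) := by
    have : Real.exp T - Real.exp X = Real.exp X * (Real.exp (T - X) - 1) := by rw [hT]; ring
    rw [this, abs_mul, abs_of_pos hXp]
    exact mul_le_mul_of_nonneg_left ha hXp.le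
  calc |V - Real.exp X| ≤ |V - Real.exp T| + |Real.exp T - Real.exp X| := abs_sub_le _ _ _
    _ ≤ Real.exp X * (5 / 4 * (ε / 8)) + Real.exp X * (ε / 4) := add_le_add h2 h3
    _ = Real.exp X * (13 / 32 * ε) := by ring
    _ ≤ Real.exp X * ε := mul_le_mul_of_nonneg_left (by linarith) hXp.le

end Pool.Agent.Helper59.BO
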