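import Pool.Agent.Helper92.BO.GoalsD

/-! Packet BO-ITP: the truncated logarithm after the substitution. -/

namespace Pool.Agent.Helper59.BO

open Pool.Agent.Helper92.BO Finset Polynomial

theorem sum_getD (fl : List ℕ) : ∑ i ∈ range fl.length, fl.getD i 0 = fl.sum := by
  rw [Finset.sum_range, ← Fin.sum_univ_getElem fl]
  refine Finset.sum_congr rfl fun i _ => ?_
  rw [List.getD_eq_getElem _ _ i.2]

/-- The polynomial `phi`, complex version. -/
noncomputable def ph (fl : List ℕ) (D : ℕ) : ℂ[X] :=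
  C ((D : ℂ)⁻¹) * (polyL fl).map (Nat.castRingHom ℂ)

theorem ph_eval (fl : List ℕ) (D : ℕ) (w : ℂ) : (ph fl D).eval w = evL fl w / D := by
  rw [ph, eval_mul, eval_C, polyL, Polynomial.map_sum, eval_finsetSum, evL, div_eq_inv_mul]
  congr 1
  refine Finset.sum_congr rfl fun i _ => ?_
  rw [map_monomial, eval_monomial]
  simp

theorem ph_pow_coeff (fl : List ℕ) (D i j : ℕ) :
    (ph fl D ^ i).coeff j = ((D : ℂ)⁻¹) ^ i * (((polyL fl ^ i).coeff j : ℕ) : ℂ) := by
  rw [ph, mul_pow, ← C_pow, coeff_C_mul, ← Polynomial.map_pow, coeff_map]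
  simp

theorem ph_natDegree (fl : List ℕ) (D : ℕ) : (ph fl D).natDegree ≤ fl.length := by
  rw [ph]
  refine (natDegree_C_mul_le _ _).trans ((natDegree_map_le).trans ?_)
  rw [polyL]
  refine natDegree_sum_le_of_forall_le _ _ fun i hi => ?_
  rw [Finset.mem_range] at hi
  exact (natDegree_monomial_le _).trans hi.le

theorem itp (hrtl : RtlStmt) : ItpStmt := by
  intro fl D β δ hD hβ hfl0 hflD hdisc n m y s hy0 hyn hs hne hpos
  have hDC : (D : ℂ) ≠ 0 := by exact_mod_cast hD.ne'
  set p : ℂ[X] := ∑ i ∈ range (n + 1), monomial i ((y i : ℝ) : ℂ) with hp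
  set G : ℂ[X] := ∑ i ∈ range m, monomial (i + 1) (((s (i + 1) / (i + 1) : ℝ)) : ℂ) with hG
  have hpc : ∀ k, p.coeff k = ((y k : ℝ) : ℂ) := by
    intro k
    rw [hp, finsetSum_coeff]
    simp only [coeff_monomial]
    rw [Finset.sum_ite_eq' (range (n + 1)) k]
    by_cases hk : k ∈ range (n + 1)
    · rw [if_pos hk]
    · rw [if_neg hk]
      rw [Finset.mem_range, not_lt] at hk
      rw [hyn k (by omega)]; simp
  have hGc : ∀ k < m, G.coeff (k + 1) = (((s (k + 1) / (k + 1) : ℝ)) : ℂ) := by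
    intro k hk
    rw [hG, finsetSum_coeff]
    simp only [coeff_monomial, add_left_inj]
    rw [Finset.sum_ite_eq' (range m) k, if_pos (Finset.mem_range.mpr hk)]
  have hpe : ∀ w : ℂ, p.eval w = ∑ i ∈ range (n + 1), (y i : ℂ) * w ^ i := by
    intro w
    rw [hp, eval_finsetSum]
    exact Finset.sum_congr rfl fun i _ => by rw [eval_monomial]
  -- divisibility for p, G
  have hdv : (X : ℂ[X]) ^ m ∣ p * G.derivative - p.derivative := by
    rw [X_pow_dvd_iff]
    intro k hk
    rw [coeff_sub, coeff_derivative, hpc, coeff_mul, Finset.Nat.sum_antidiagonal_eq_sum_range_succ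
      (f := fun a b => p.coeff a * G.derivative.coeff b)]
    have h1 : ∀ a ∈ range k.succ, p.coeff a * G.derivative.coeff (k - a) =
        (((y a * s (k + 1 - a) : ℝ)) : ℂ) := by
      intro a ha
      rw [Finset.mem_range] at ha
      rw [coeff_derivative, hGc (k - a) (by omega), hpc]
      have h2 : k + 1 - a = k - a + 1 := by omega
      rw [h2]
      have h3 : ((k - a : ℕ) : ℝ) + 1 ≠ 0 := by positivity
      push_cast
      have h4 : ((k - a : ℕ) : ℂ) + 1 ≠ 0 := by exact_mod_cast h3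
      field_simp
    rw [Finset.sum_congr rfl h1, ← Complex.ofReal_sum]
    have h5 := hs.2 (k + 1)
    rw [Finset.sum_range_succ] at h5
    simp only [Nat.sub_self, hs.1, mul_zero, add_zero] at h5
    rw [Nat.succ_eq_add_one, ← h5]
    push_cast
    ring
  set q : ℂ[X] := p.comp (ph fl D) with hq
  set H : ℂ[X] := G.comp (ph fl D) with hH
  have hph0 : (ph fl D).eval 0 = 0 := by
    rw [ph_eval, evL]
    rw [Finset.sum_eq_zero]
    · simp
    · intro i _
      rcases Nat.eq_zero_or_pos i with h | h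
      · subst h; rw [hfl0]; simp
      · rw [zero_pow h.ne', mul_zero]
  have hXph : (X : ℂ[X]) ∣ ph fl D := by
    rw [X_dvd_iff, coeff_zero_eq_eval_zero, hph0]
  have hdvq : (X : ℂ[X]) ^ m ∣ q * H.derivative - q.derivative := by
    have h1 : q * H.derivative - q.derivative =
        (ph fl D).derivative * ((p * G.derivative - p.derivative).comp (ph fl D)) := by
      rw [hq, hH, derivative_comp, derivative_comp, sub_comp, mul_comp]
      ring
    rw [h1]
    obtain ⟨r, hr⟩ := hdv
    rw [hr, mul_comp, pow_comp, X_comp]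
    exact Dvd.dvd.mul_left (Dvd.dvd.mul_right (pow_dvd_pow_of_dvd hXph m) _) _
  have hq0 : q.coeff 0 = 1 := by
    rw [coeff_zero_eq_eval_zero, hq, eval_comp, hph0, ← coeff_zero_eq_eval_zero, hpc, hy0]
    simp
  have hH0 : H.coeff 0 = 0 := by
    rw [coeff_zero_eq_eval_zero, hH, eval_comp, hph0, hG, eval_finsetSum]
    refine Finset.sum_eq_zero fun i _ => ?_
    rw [eval_monomial]; simp
  have hqne : ∀ w : ℂ, ‖w‖ ≤ β → q.eval w ≠ 0 := by
    intro w hw
    obtain ⟨t, ht0, ht1, ht⟩ := hdisc w hw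
    rw [hq, eval_comp, ph_eval, hpe]
    exact hne _ t ht0 ht1 ht
  obtain ⟨e, he1, he2⟩ := hrtl q H β m hβ hq0 hqne hH0 hdvq
  -- the value at one
  have hq1 : q.eval 1 = (((∑ i ∈ range (n + 1), y i : ℝ)) : ℂ) := by
    rw [hq, eval_comp, ph_eval]
    have h1 : evL fl 1 = D := by
      rw [evL, ← hflD, ← sum_getD fl]
      push_cast
      exact Finset.sum_congr rfl fun i _ => by rw [one_pow, mul_one]
    rw [h1, div_self hDC, hpe]
    push_cast
    exact Finset.sum_congr rfl fun i _ => by rw [one_pow, mul_one]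
  -- the sum of the coefficients
  have hsum : ∑ j ∈ range (m + 1), H.coeff j =
      (((∑ i ∈ range m, s (i + 1) / (i + 1) * (aL fl m (i + 1) / (D : ℝ) ^ (i + 1)) : ℝ)) : ℂ) := by
    have h1 : H = ∑ i ∈ range m, C (((s (i + 1) / (i + 1) : ℝ)) : ℂ) * ph fl D ^ (i + 1) := by
      rw [hH, hG, Polynomial.sum_comp]
      exact Finset.sum_congr rfl fun i _ => by rw [monomial_comp]
    rw [h1]
    simp only [finsetSum_coeff, coeff_C_mul, ph_pow_coeff]
    rw [Finset.sum_comm, Complex.ofReal_sum]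
    refine Finset.sum_congr rfl fun i _ => ?_
    rw [← Finset.mul_sum, ← Finset.mul_sum, aL]
    push_cast
    rw [div_eq_mul_inv _ ((D : ℂ) ^ (i + 1)), inv_pow]
    ring
  have hB : 0 ≤ (1 / β) ^ m / (β - 1) := by
    have : 0 < β := by linarith
    exact div_nonneg (by positivity) (by linarith)
  set R : ℝ := ∑ i ∈ range m, s (i + 1) / (i + 1) * (aL fl m (i + 1) / (D : ℝ) ^ (i + 1)) with hR
  set Y : ℝ := ∑ i ∈ range (n + 1), y i with hY
  have h1 : Y = Real.exp (R + e.re) := by
    have h2 : ‖((Y : ℝ) : ℂ)‖ = Real.exp (R + e.re) := by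
      rw [← hq1, he1, hsum, Complex.norm_exp]
      congr 1
    rwa [Complex.norm_real, Real.norm_of_nonneg hpos.le] at h2
  have h2 : Real.log Y - R = e.re := by
    rw [h1, Real.log_exp]; ring
  rw [h2]
  refine (Complex.abs_re_le_norm e).trans (he2.trans ?_)
  refine mul_le_mul_of_nonneg_right ?_ hB
  have h3 : q.natDegree ≤ n * fl.length := by
    rw [hq]
    refine natDegree_comp_le.trans ?_
    refine Nat.mul_le_mul ?_ (ph_natDegree fl D)
    rw [hp]
    refine natDegree_sum_le_of_forall_le _ _ fun i hi => ?_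
    rw [Finset.mem_range] at hi
    exact (natDegree_monomial_le _).trans (by omega)
  exact_mod_cast h3

end Pool.Agent.Helper59.BO
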