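import Pool.Agent.Helper92.BO.GoalsC

/-! Packet BO-NSE: the Newton sums. -/

namespace Pool.Agent.Helper59.BO

open Pool.Agent.Helper92.BO Finset

/-- The sequence. -/
noncomputable def sq (y : ℕ → ℝ) : ℕ → ℝ
  | j => (j : ℝ) * y j - ∑ i : Fin j, y (i.1 + 1) * sq y (j - (i.1 + 1))
  decreasing_by
    have := i.2
    omega

theorem sq_eq (y : ℕ → ℝ) (j : ℕ) :
    sq y j = (j : ℝ) * y j - ∑ i ∈ range j, y (i + 1) * sq y (j - (i + 1)) := by
  rw [sq, Finset.sum_range]

theorem split (y s : ℕ → ℝ) (j : ℕ) : ∑ i ∈ range (j + 1), y i * s (j - i) =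
    (∑ i ∈ range j, y (i + 1) * s (j - (i + 1))) + y 0 * s j := by
  rw [Finset.sum_range_succ']
  simp

theorem nse : NseStmt := by
  refine ⟨?_, ?_⟩
  · intro y hy
    refine ⟨sq y, ?_, ?_⟩
    · rw [sq_eq]; simp
    · intro j
      rw [split, hy, one_mul]
      have h := sq_eq y j
      linarith
  · intro y y' s s' m hy hyy hs hs' h h'
    have hy' : y' 0 = 1 := by rw [← hyy 0 (Nat.zero_le m)]; exact hy
    intro j
    induction j using Nat.strong_induction_on with
    | _ j ih =>
      intro hj
      have h1 := h j hj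
      have h2 := h' j hj
      rw [split, hy, one_mul] at h1
      rw [split, hy', one_mul] at h2
      have h3 : ∑ i ∈ range j, y (i + 1) * s (j - (i + 1)) =
          ∑ i ∈ range j, y' (i + 1) * s' (j - (i + 1)) := by
        refine Finset.sum_congr rfl fun i hi => ?_
        rw [Finset.mem_range] at hi
        rw [hyy (i + 1) (by omega), ih (j - (i + 1)) (by omega) (by omega)]
      rw [hyy j hj] at h1
      linarith

end Pool.Agent.Helper59.BO
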