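import Pool.Agent.Helper92.BO.GoalsF
import Pool.Agent.Helper38.FR.PTF
import Pool.Agent.Helper62.FR.PTN
import Pool.Agent.Helper3.DT.PTL

/-! Packet BO-PTM: the algorithm is polynomial time. -/

namespace Pool.Agent.Helper59.BO

open Pool.Agent.Helper81.CC Pool.Agent.Bin Pool.Agent.Helper92.VP Pool.Agent.Helper92.FR
open Pool.Agent.Helper92.BO

variable {α : Type} [ToData α]

theorem pt_qm (Δ : ℕ) {m : α → ℕ} (hm : PolyTime m) : PolyTime (fun a => qm Δ (m a)) := by
  unfold qm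
  fun_prop

theorem pt_mP (C : ℕ) {n q : α → ℕ} (hn : PolyTime n) (hq : PolyTime q) :
    PolyTime (fun a => mP C (n a) (q a)) := by
  unfold mP
  have h1 : PolyTime (fun a => Nat.log 2 (n a + q a + 2)) :=
    Pool.Agent.Helper3.DT.pt_log (by fun_prop)
  fun_prop

theorem pt_expQ {K : α → ℕ} {T : α → Qn} (hK : PolyTime K) (hT : PolyTime T) :
    PolyTime (fun a => expQ (K a) (T a)) := by
  unfold expQ
  fun_prop

theorem ptm (hptg : Pool.Agent.Helper92.BO.PtgStmt) (hptd : Pool.Agent.Helper92.BO.PtdStmt)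
    (hptp : Pool.Agent.Helper92.BO.PtpStmt) (hptt : Pool.Agent.Helper92.BO.PttStmt) :
    Pool.Agent.Helper92.BO.PtmStmt := by
  intro Δ fl D B C c1 hC
  unfold mainB
  have hE : PolyTime (fun z : Sys × ℕ => edgesS z.1) := hptg.1.comp (PolyTime.fst PolyTime.id')
  have hn : PolyTime (fun z : Sys × ℕ => z.1.1) := by fun_prop
  have hm : PolyTime (fun z : Sys × ℕ => mP C z.1.1 z.2) := pt_mP C (by fun_prop) (by fun_prop)
  have hN : PolyTime (fun z : Sys × ℕ => (z.1.1 + z.2 + 2) ^ c1) := by fun_prop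
  have hsets := hptd _ (fun z : Sys × ℕ => edgesS z.1) (fun z => z.1.1) (fun _ => B)
    (fun z => mP C z.1.1 z.2) (fun z => (z.1.1 + z.2 + 2) ^ c1) hE hn (by fun_prop) hm hN
  have hT : PolyTime (fun z : Sys × ℕ => tot Δ fl D (edgesS z.1) z.1.1 B (mP C z.1.1 z.2)
      ((z.1.1 + z.2 + 2) ^ c1)) := by
    unfold tot
    apply PT_qsum
    refine PolyTime.flatMap hsets ?_
    refine hptt _ (fun p : (Sys × ℕ) × List ℕ => edgesS p.1.1) (fun p => p.1.1.1)
      (fun p => mP C p.1.1.1 p.1.2) (fun p => (p.1.1.1 + p.1.2 + 2) ^ c1)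
      (fun p => qm Δ (mP C p.1.1.1 p.1.2)) (fun p => wts fl D (mP C p.1.1.1 p.1.2))
      (fun p => p.2.take (mP C p.1.1.1 p.1.2)) ?_ ?_ ?_ ?_ ?_ ?_ ?_ ?_ ?_
    · exact hE.comp (PolyTime.fst PolyTime.id')
    · fun_prop
    · exact pt_mP C (by fun_prop) (by fun_prop)
    · fun_prop
    · exact pt_qm Δ (pt_mP C (by fun_prop) (by fun_prop))
    · exact hptp fl D _ _ (pt_mP C (by fun_prop) (by fun_prop))
    · exact PolyTime.take (pt_mP C (by fun_prop) (by fun_prop)) (by fun_prop)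
    · intro p
      exact List.length_take_le _ _
    · intro p
      exact hC _ _
  apply Pool.Agent.Helper62.FR.PT_toRQ
  have hX : PolyTime (fun z : Sys × ℕ => expQ (8 * (z.1.1 + 1 + z.2)) (tot Δ fl D (edgesS z.1)
      z.1.1 B (mP C z.1.1 z.2) ((z.1.1 + z.2 + 2) ^ c1))) := pt_expQ (by fun_prop) hT
  have hR : PolyTime (fun z : Sys × ℕ => Qn.prod (List.replicate z.1.1 (invNat 2))) := by
    apply PT_qprod
    exact PolyTime.replicate (by fun_prop) (by fun_prop)
  fun_prop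

end Pool.Agent.Helper59.BO
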