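import Pool.Agent.Helper92.BO.GoalsE

/-! Packet BO-RLB: neighbourhoods. -/

namespace Pool.Agent.Helper59.BO

open Pool.Agent.Helper92.BO

theorem nbrs {G : SimpleGraph ℕ} {Δ : ℕ} (h : DegLe G Δ) : ∃ N : ℕ → Finset ℕ,
    (∀ v w, w ∈ N v ↔ G.Adj v w) ∧ ∀ v, (N v).card ≤ Δ := by
  have hf : ∀ v, (G.neighborSet v).Finite := fun v => Set.finite_of_encard_le_coe (h v)
  refine ⟨fun v => (hf v).toFinset, fun v w => by simp, fun v => ?_⟩
  have h1 := h v
  rw [(hf v).encard_eq_coe_toFinset_card] at h1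
  exact_mod_cast h1

theorem mem_cn {G : SimpleGraph ℕ} {n : ℕ} {I : Finset ℕ} {w : ℕ} :
    w ∈ cn G n I ↔ w < n ∧ (w ∈ I ∨ ∃ v ∈ I, G.Adj v w) := by
  simp [cn]

theorem adj_iff {E : List (ℕ × ℕ)} {u w : ℕ} : (gE E).Adj u w ↔ adjB E u w = true := Iff.rfl

theorem rel_iff {E : List (ℕ × ℕ)} {n u w : ℕ} : relB E n u w = true ↔
    ∃ x < n, (x = u ∨ (gE E).Adj u x) ∧ (x = w ∨ (gE E).Adj w x) := by
  rw [relB, List.any_eq_true]
  simp only [List.mem_range, Bool.and_eq_true, Bool.or_eq_true, decide_eq_true_eq, adj_iff]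

theorem rlb : RlbStmt := by
  intro Δ n E hdeg
  obtain ⟨N, hN, hNc⟩ := nbrs hdeg
  refine ⟨?_, ?_, ?_⟩
  · intro I _
    have h1 : (cnL E n I).toFinset = cn (gE E) n I.toFinset := by
      ext w
      rw [List.mem_toFinset, mem_cn, cnL, List.mem_filter, List.mem_range]
      simp only [Bool.or_eq_true, List.contains_iff_mem, List.any_eq_true, List.mem_toFinset,
        adj_iff]
    have h2 : (cnL E n I).Nodup := List.nodup_range.filter _
    refine ⟨h1, h2, ?_⟩
    rw [← List.toFinset_card_of_nodup h2, h1]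
    have h3 : cn (gE E) n I.toFinset ⊆ I.toFinset.biUnion (fun v => insert v (N v)) := by
      intro w hw
      rw [mem_cn] at hw
      rw [Finset.mem_biUnion]
      rcases hw.2 with h | ⟨v, hv, h⟩
      · exact ⟨w, h, Finset.mem_insert_self _ _⟩
      · exact ⟨v, hv, Finset.mem_insert_of_mem ((hN v w).mpr h)⟩
    refine (Finset.card_le_card h3).trans ((Finset.card_biUnion_le_card_mul _ _ (Δ + 1)
      fun v _ => ?_).trans (Nat.mul_le_mul_right _ (List.toFinset_card_le I)))
    exact (Finset.card_insert_le _ _).trans (Nat.add_le_add_right (hNc v) 1)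
  · intro u w _ _
    rw [rel_iff, Finset.not_disjoint_iff]
    constructor
    · rintro ⟨x, hx, h1, h2⟩
      refine ⟨x, ?_, ?_⟩
      · rw [mem_cn]; exact ⟨hx, by simpa using h1⟩
      · rw [mem_cn]; exact ⟨hx, by simpa using h2⟩
    · rintro ⟨x, h1, h2⟩
      rw [mem_cn] at h1 h2
      exact ⟨x, h1.1, by simpa using h1.2, by simpa using h2.2⟩
  · intro u _
    have h2 : (nbR E n u).Nodup := List.nodup_range.filter _
    rw [← List.toFinset_card_of_nodup h2]
    have h3 : (nbR E n u).toFinset ⊆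
        insert u ((N u).biUnion fun x => insert x ((N x).erase u)) := by
      intro w hw
      rw [List.mem_toFinset, nbR, List.mem_filter, rel_iff] at hw
      obtain ⟨_, x, _, h4, h5⟩ := hw
      by_cases hwu : w = u
      · rw [hwu]; exact Finset.mem_insert_self _ _
      refine Finset.mem_insert_of_mem ?_
      rw [Finset.mem_biUnion]
      rcases h4 with h4 | h4
      · rcases h5 with h5 | h5
        · exact absurd (h5.symm.trans h4) hwu
        · rw [h4] at h5
          exact ⟨w, (hN u w).mpr h5.symm, Finset.mem_insert_self _ _⟩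
      · rcases h5 with h5 | h5
        · rw [← h5]
          exact ⟨x, (hN u x).mpr h4, Finset.mem_insert_self _ _⟩
        · exact ⟨x, (hN u x).mpr h4, Finset.mem_insert_of_mem
            (Finset.mem_erase.mpr ⟨hwu, (hN x w).mpr h5.symm⟩)⟩
    refine (Finset.card_le_card h3).trans ((Finset.card_insert_le _ _).trans ?_)
    refine Nat.add_le_add_right ?_ 1
    rw [pow_two]
    refine (Finset.card_biUnion_le_card_mul _ _ Δ fun x hx => ?_).trans
      (Nat.mul_le_mul_right _ (hNc u))
    have h6 : u ∈ N x := (hN x u).mpr ((hN u x).mp hx).symm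
    refine (Finset.card_insert_le _ _).trans ?_
    rw [Finset.card_erase_add_one h6]
    exact hNc x

end Pool.Agent.Helper59.BO
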