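import Pool.Agent.Helper92.BO.GoalsB

/-! Packet BO-ZNF: the zero-free region. -/

namespace Pool.Agent.Helper59.BO

open Pool.Agent.Helper92.BO

theorem znf (hzna : ZnaStmt) (hsmi : SmiStmt) : ZnfStmt := by
  intro Δ
  have hΔ : (0 : ℝ) < 400 * ((Δ : ℝ) + 1) ^ 2 := by positivity
  have hl0 : (0 : ℝ) < 1 / (400 * ((Δ : ℝ) + 1) ^ 2) := by positivity
  have hl0' : 1 / (400 * ((Δ : ℝ) + 1) ^ 2) ≤ 1 := by
    rw [div_le_one hΔ]
    have : (1 : ℝ) ≤ ((Δ : ℝ) + 1) ^ 2 := by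
      have h0 : (0 : ℝ) ≤ (Δ : ℝ) := Nat.cast_nonneg Δ
      nlinarith
    linarith
  set l0 : ℝ := 1 / (400 * ((Δ : ℝ) + 1) ^ 2) with hl0d
  obtain ⟨δ, hδ, H⟩ := hzna Δ (l0 / 2) (by linarith) (by linarith)
  refine ⟨min δ (l0 / 2), lt_min hδ (by linarith), ?_⟩
  intro G s hs hG L hL z t ht0 ht1 hz
  by_cases hzl : ‖z‖ ≤ l0
  · exact (hsmi G Δ z hG hzl L hL).1 (fun _ => 1) (fun u _ => ⟨one_pos, le_refl 1⟩)
  · push Not at hzl
    have h1 : ‖z - t‖ ≤ l0 / 2 := le_trans hz (min_le_right _ _)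
    have h2 : ‖z‖ ≤ ‖z - t‖ + ‖(t : ℂ)‖ := by
      have := norm_add_le (z - t) (t : ℂ)
      simpa using this
    have h3 : ‖(t : ℂ)‖ = t := by
      rw [Complex.norm_real, Real.norm_of_nonneg ht0]
    exact H G s hs hG L hL z t (by linarith) ht1 (le_trans hz (min_le_left _ _))

end Pool.Agent.Helper59.BO
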